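import Pool.Agent.Lib.MP_cdd7b4_an.MX.Iface

set_option autoImplicit false

/-! # Module LIM: passage to the limit in the exponent -/

namespace Pool.Agent.Lib.MP_cdd7b4_an.MX.H65

open scoped BigOperators ENNReal
open Filter

theorem lpn_nonneg {ι : Type*} [Fintype ι] (p : ℝ) (a : ι → ℝ) : 0 ≤ lpn p a := by
  unfold lpn
  exact Real.rpow_nonneg (Finset.sum_nonneg fun i _ => Real.rpow_nonneg (abs_nonneg _) _) _

theorem nr_nonneg {m : ℕ} (r : ℝ) (w : Fin m → ℝ) : 0 ≤ nr r w := by
  unfold nr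
  split_ifs
  · exact Real.iSup_nonneg fun j => abs_nonneg _
  · exact lpn_nonneg _ _

theorem sum_rpow_le {ι : Type*} (S : Finset ι) (f : ι → ℝ) (hf : ∀ i ∈ S, 0 ≤ f i) {p : ℝ}
    (hp : 1 ≤ p) : ∑ i ∈ S, f i ^ p ≤ (∑ i ∈ S, f i) ^ p := by
  classical
  induction S using Finset.induction_on with
  | empty =>
    rw [Finset.sum_empty, Finset.sum_empty, Real.zero_rpow (by linarith)]
  | insert j S hj ih =>
    rw [Finset.sum_insert hj, Finset.sum_insert hj]
    have h1 := ih fun i hi => hf i (Finset.mem_insert_of_mem hi)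
    have h2 := Real.add_rpow_le_rpow_add (hf j (Finset.mem_insert_self _ _))
      (Finset.sum_nonneg fun i hi => hf i (Finset.mem_insert_of_mem hi)) hp
    linarith

/-- The norms decrease with the exponent. -/
theorem nr_mono {m : ℕ} {r r' : ℝ} (hr : 0 ≤ r) (hrr : r ≤ r') (w : Fin m → ℝ) :
    nr r w ≤ nr r' w := by
  rcases eq_or_lt_of_le hrr with h | hlt
  · rw [h]
  have hr' : 0 < r' := hr.trans_lt hlt
  have hn' : nr r' w = (∑ i, |w i| ^ (1 / r')) ^ r' := by
    unfold nr lpn
    rw [if_neg hr'.ne', one_div_one_div]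
  rcases eq_or_lt_of_le hr with h0 | h0
  · rw [← h0, hn']
    unfold nr
    rw [if_pos rfl]
    refine Real.iSup_le (fun j => ?_)
      (Real.rpow_nonneg (Finset.sum_nonneg fun i _ => Real.rpow_nonneg (abs_nonneg _) _) _)
    have h1 : |w j| ^ (1 / r') ≤ ∑ i, |w i| ^ (1 / r') :=
      Finset.single_le_sum (f := fun i => |w i| ^ (1 / r'))
        (fun i _ => Real.rpow_nonneg (abs_nonneg _) _) (Finset.mem_univ j)
    calc |w j| = (|w j| ^ (1 / r')) ^ r' := by
          rw [← Real.rpow_mul (abs_nonneg _), one_div_mul_cancel hr'.ne', Real.rpow_one]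
      _ ≤ _ := Real.rpow_le_rpow (Real.rpow_nonneg (abs_nonneg _) _) h1 hr'.le
  · have hn : nr r w = (∑ i, |w i| ^ (1 / r)) ^ r := by
      unfold nr lpn
      rw [if_neg h0.ne', one_div_one_div]
    rw [hn, hn']
    have h1 : ∑ i, |w i| ^ (1 / r) = ∑ i, (|w i| ^ (1 / r')) ^ (r' / r) := by
      refine Finset.sum_congr rfl fun i _ => ?_
      rw [← Real.rpow_mul (abs_nonneg _)]
      congr 1
      field_simp
    have h2 := sum_rpow_le Finset.univ (fun i => |w i| ^ (1 / r'))
      (fun i _ => Real.rpow_nonneg (abs_nonneg _) _) (p := r' / r) (by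
        rw [le_div_iff₀ h0]
        linarith)
    rw [h1]
    have h3 : 0 ≤ ∑ i, |w i| ^ (1 / r') :=
      Finset.sum_nonneg fun i _ => Real.rpow_nonneg (abs_nonneg _) _
    calc (∑ i, (|w i| ^ (1 / r')) ^ (r' / r)) ^ r ≤ ((∑ i, |w i| ^ (1 / r')) ^ (r' / r)) ^ r :=
          Real.rpow_le_rpow (Finset.sum_nonneg fun i _ => by positivity) h2 h0.le
      _ = (∑ i, |w i| ^ (1 / r')) ^ r' := by
          rw [← Real.rpow_mul h3]
          congr 1
          field_simp

/-- The norms increase by at most `m ^ (r' - r)`. -/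
theorem nr_le {m : ℕ} {r r' : ℝ} (hr : 0 ≤ r) (hrr : r ≤ r') (w : Fin m → ℝ) :
    nr r' w ≤ (m : ℝ) ^ (r' - r) * nr r w := by
  rcases eq_or_lt_of_le hrr with h | hlt
  · rw [h, sub_self, Real.rpow_zero, one_mul]
  have hr' : 0 < r' := hr.trans_lt hlt
  have hn' : nr r' w = (∑ i, |w i| ^ (1 / r')) ^ r' := by
    unfold nr lpn
    rw [if_neg hr'.ne', one_div_one_div]
  rcases eq_or_lt_of_le hr with h0 | h0
  · rw [← h0, hn', sub_zero]
    unfold nr
    rw [if_pos rfl]
    set N := ⨆ j, |w j| with hN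
    have hN0 : 0 ≤ N := Real.iSup_nonneg fun j => abs_nonneg _
    have h1 : ∀ i, |w i| ≤ N := fun i => le_ciSup (f := fun j => |w j|) (Set.finite_range _).bddAbove i
    have h2 : ∑ i, |w i| ^ (1 / r') ≤ m * N ^ (1 / r') := by
      calc ∑ i, |w i| ^ (1 / r') ≤ ∑ _i : Fin m, N ^ (1 / r') :=
            Finset.sum_le_sum fun i _ => Real.rpow_le_rpow (abs_nonneg _) (h1 i) (by positivity)
        _ = m * N ^ (1 / r') := by
            rw [Finset.sum_const, Finset.card_univ, Fintype.card_fin, nsmul_eq_mul]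
    calc (∑ i, |w i| ^ (1 / r')) ^ r' ≤ (m * N ^ (1 / r')) ^ r' :=
          Real.rpow_le_rpow (Finset.sum_nonneg fun i _ => by positivity) h2 hr'.le
      _ = (m : ℝ) ^ r' * N := by
          rw [Real.mul_rpow (by positivity) (by positivity), ← Real.rpow_mul hN0,
            one_div_mul_cancel hr'.ne', Real.rpow_one]
  · have hn : nr r w = (∑ i, |w i| ^ (1 / r)) ^ r := by
      unfold nr lpn
      rw [if_neg h0.ne', one_div_one_div]
    rw [hn, hn']
    have h2 := Real.rpow_sum_le_const_mul_sum_rpow_of_nonneg (Finset.univ : Finset (Fin m))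
      (f := fun i => |w i| ^ (1 / r')) (p := r' / r) (by
        rw [le_div_iff₀ h0]
        linarith) (fun i _ => Real.rpow_nonneg (abs_nonneg _) _)
    have h1 : ∑ i, (|w i| ^ (1 / r')) ^ (r' / r) = ∑ i, |w i| ^ (1 / r) := by
      refine Finset.sum_congr rfl fun i _ => ?_
      rw [← Real.rpow_mul (abs_nonneg _)]
      congr 1
      field_simp
    rw [h1, Finset.card_univ, Fintype.card_fin] at h2
    have h3 : 0 ≤ ∑ i, |w i| ^ (1 / r') :=
      Finset.sum_nonneg fun i _ => Real.rpow_nonneg (abs_nonneg _) _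
    have h4 : 0 ≤ ∑ i, |w i| ^ (1 / r) :=
      Finset.sum_nonneg fun i _ => Real.rpow_nonneg (abs_nonneg _) _
    calc (∑ i, |w i| ^ (1 / r')) ^ r' = ((∑ i, |w i| ^ (1 / r')) ^ (r' / r)) ^ r := by
          rw [← Real.rpow_mul h3]
          congr 1
          field_simp
      _ ≤ ((m : ℝ) ^ (r' / r - 1) * ∑ i, |w i| ^ (1 / r)) ^ r :=
          Real.rpow_le_rpow (by positivity) h2 h0.le
      _ = (m : ℝ) ^ (r' - r) * (∑ i, |w i| ^ (1 / r)) ^ r := by
          rw [Real.mul_rpow (by positivity) h4, ← Real.rpow_mul (by positivity)]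
          congr 2
          field_simp

/-- For close exponents the norms differ by a factor at most two. -/
theorem nr_le_two {m : ℕ} {r r' : ℝ} (hr : 0 ≤ r) (hr' : 0 ≤ r') (h : |r - r'| ≤ 1 / (m + 1))
    (w : Fin m → ℝ) : nr r' w ≤ 2 * nr r w := by
  have h0 := nr_nonneg r w
  rcases le_total r' r with h1 | h1
  · have := nr_mono hr' h1 w
    linarith
  · refine (nr_le hr h1 w).trans (mul_le_mul_of_nonneg_right ?_ h0)
    rcases Nat.eq_zero_or_pos m with hm | hm
    · subst hm
      rcases eq_or_lt_of_le h1 with h2 | h2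
      · rw [h2, sub_self, Real.rpow_zero]
        norm_num
      · rw [Nat.cast_zero, Real.zero_rpow (by linarith [sub_pos.2 h2])]
        norm_num
    · have hm1 : (1 : ℝ) ≤ m := by exact_mod_cast hm
      have h2 : r' - r ≤ 1 / (m + 1) := by
        rw [abs_sub_comm] at h
        exact (le_abs_self _).trans h
      have h3 : (m : ℝ) ≤ 2 ^ m := by exact_mod_cast Nat.lt_two_pow_self.le
      calc (m : ℝ) ^ (r' - r) ≤ (m : ℝ) ^ (1 / (m + 1 : ℝ)) :=
            Real.rpow_le_rpow_of_exponent_le hm1 h2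
        _ ≤ ((2 : ℝ) ^ m) ^ (1 / (m + 1 : ℝ)) :=
            Real.rpow_le_rpow (by positivity) h3 (by positivity)
        _ = (2 : ℝ) ^ ((m : ℝ) * (1 / (m + 1 : ℝ))) := by
            rw [← Real.rpow_natCast, ← Real.rpow_mul (by norm_num)]
        _ ≤ (2 : ℝ) ^ (1 : ℝ) := by
            refine Real.rpow_le_rpow_of_exponent_le (by norm_num) ?_
            rw [mul_one_div, div_le_one (by positivity)]
            linarith
        _ = 2 := Real.rpow_one 2

/-! ### Extension by zero -/

theorem sum_ext {E : Type*} [AddCommMonoid E] {m M : ℕ} (h : m ≤ M) (f : Fin M → E)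
    (hf : ∀ i, i ∉ Set.range (Fin.castLE h) → f i = 0) :
    ∑ i, f i = ∑ i, f (Fin.castLE h i) :=
  (Fintype.sum_of_injective (Fin.castLE h) (Fin.castLE_injective h) _ _ hf fun _ => rfl).symm

theorem lpn_ext {p : ℝ} (hp : 0 < p) {m M : ℕ} (h : m ≤ M) (f : Fin M → ℝ)
    (hf : ∀ i, i ∉ Set.range (Fin.castLE h) → f i = 0) :
    lpn p f = lpn p fun i => f (Fin.castLE h i) := by
  unfold lpn
  rw [sum_ext h (fun i => |f i| ^ p)]
  intro i hi
  rw [hf i hi, abs_zero, Real.zero_rpow hp.ne']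

theorem nr_ext {r : ℝ} (hr : 0 ≤ r) {m M : ℕ} (h : m ≤ M) (f : Fin M → ℝ)
    (hf : ∀ i, i ∉ Set.range (Fin.castLE h) → f i = 0) :
    nr r f = nr r fun i => f (Fin.castLE h i) := by
  unfold nr
  split_ifs with h0
  · refine le_antisymm ?_ ?_
    · refine Real.iSup_le (fun i => ?_) (Real.iSup_nonneg fun j => abs_nonneg _)
      by_cases hi : i ∈ Set.range (Fin.castLE h)
      · obtain ⟨j, rfl⟩ := hi
        exact le_ciSup (f := fun j => |f (Fin.castLE h j)|) (Set.finite_range _).bddAbove j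
      · rw [hf i hi, abs_zero]
        exact Real.iSup_nonneg fun j => abs_nonneg _
    · refine Real.iSup_le (fun i => ?_) (Real.iSup_nonneg fun j => abs_nonneg _)
      exact le_ciSup (f := fun j => |f j|) (Set.finite_range _).bddAbove (Fin.castLE h i)
  · exact lpn_ext (by have := lt_of_le_of_ne hr (Ne.symm h0); positivity) h f hf

/-- The norm of `ℓ_t`, `t = 1 / r`. -/
theorem ltn_eq {m : ℕ} {r : ℝ} (hr : 0 ≤ r) (w : Fin m → ℝ) :
    ltn (if r = 0 then ∞ else ENNReal.ofReal (1 / r)) w = nr r w := by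
  unfold ltn nr
  by_cases h0 : r = 0
  · rw [if_pos h0, if_pos rfl, if_pos h0]
  · have hpos : 0 < r := lt_of_le_of_ne hr (Ne.symm h0)
    rw [if_neg h0, if_neg ENNReal.ofReal_ne_top, if_neg h0,
      ENNReal.toReal_ofReal (by positivity)]

/-- LIM. Passage to the limit in the exponent. -/
theorem lim (𝕜 : Type*) [RCLike 𝕜] (X : Type*) [NormedAddCommGroup X] [NormedSpace 𝕜 X] :
    LimStatement 𝕜 X := by
  intro p C hp hyp
  have hp0 : 0 < p := by linarith
  have h1 : ∀ n : ℕ, ∃ r : ℝ, 0 ≤ r ∧ r ≤ 1 / 2 + 1 / ((n : ℝ) + 1) ∧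
      ∃ u : Fin (n + 1) → Fin (n + 1) → X, ∀ a : Fin (n + 1) → Fin (n + 1) → 𝕜,
        nr r (fun j => lpn p (fun l => ‖a j l‖)) ≤ ‖∑ j, ∑ l, a j l • u j l‖ ∧
        ‖∑ j, ∑ l, a j l • u j l‖ ≤ C * nr r (fun j => lpn p (fun l => ‖a j l‖)) :=
    fun n => hyp (n + 1) (1 / ((n : ℝ) + 1)) (by omega) (by positivity)
  choose r hr0 hr1 u hu using h1
  have hmem : ∀ n, r n ∈ Set.Icc (0 : ℝ) 2 := by
    intro n
    refine ⟨hr0 n, (hr1 n).trans ?_⟩
    have : (1 : ℝ) / ((n : ℝ) + 1) ≤ 1 := by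
      rw [div_le_one (by positivity)]
      have : (0 : ℝ) ≤ n := by positivity
      linarith
    linarith
  obtain ⟨r0, hr0mem, φ, hφ, hlim⟩ := isCompact_Icc.tendsto_subseq hmem
  have hr0' : 0 ≤ r0 := hr0mem.1
  have hr0half : r0 ≤ 1 / 2 := by
    have h2 : Tendsto (fun n : ℕ => 1 / 2 + 1 / (((φ n : ℕ) : ℝ) + 1)) atTop
        (nhds (1 / 2 + 0)) :=
      tendsto_const_nhds.add (tendsto_one_div_add_atTop_nhds_zero_nat.comp hφ.tendsto_atTop)
    rw [add_zero] at h2
    exact le_of_tendsto_of_tendsto' hlim h2 fun n => hr1 (φ n)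
  refine ⟨if r0 = 0 then ∞ else ENNReal.ofReal (1 / r0), ?_, 1 / 2, 2 * |C|, by norm_num, ?_⟩
  · split_ifs with h0
    · exact le_top
    · have hpos : 0 < r0 := lt_of_le_of_ne hr0' (Ne.symm h0)
      rw [ENNReal.le_ofReal_iff_toReal_le (by norm_num) (by positivity)]
      rw [ENNReal.toReal_ofNat, le_div_iff₀ hpos]
      linarith
  · intro m
    obtain ⟨N, hN⟩ := (Metric.tendsto_atTop.1 hlim) (1 / ((m : ℝ) + 1)) (by positivity)
    set n := φ (max N m) with hn
    have hmn : m ≤ n + 1 := by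
      have h2 := hφ.id_le (max N m)
      have h3 : max N m ≤ φ (max N m) := h2
      have h4 : m ≤ max N m := le_max_right _ _
      omega
    have hclose : |r n - r0| ≤ 1 / ((m : ℝ) + 1) := by
      have h2 := hN (max N m) (le_max_left _ _)
      rw [Real.dist_eq] at h2
      exact h2.le
    refine ⟨fun j l => u n (Fin.castLE hmn j) (Fin.castLE hmn l), fun a => ?_⟩
    set e := Fin.castLE hmn with he
    have hinj : Function.Injective e := Fin.castLE_injective hmn
    set a' : Fin (n + 1) → Fin (n + 1) → 𝕜 :=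
      Function.extend e (fun j => Function.extend e (a j) 0) 0 with ha'
    have ha1 : ∀ j l, a' (e j) (e l) = a j l := by
      intro j l
      rw [ha', hinj.extend_apply, hinj.extend_apply]
    have ha2 : ∀ j, j ∉ Set.range e → a' j = 0 := by
      intro j hj
      rw [ha', Function.extend_apply' _ _ _ hj]
      rfl
    have ha3 : ∀ j l, l ∉ Set.range e → a' (e j) l = 0 := by
      intro j l hl
      rw [ha', hinj.extend_apply, Function.extend_apply' _ _ _ hl]
      rfl
    have hsum : ∑ j, ∑ l, a' j l • u n j l = ∑ j, ∑ l, a j l • u n (e j) (e l) := by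
      rw [sum_ext hmn (fun j => ∑ l, a' j l • u n j l)]
      · refine Finset.sum_congr rfl fun j _ => ?_
        rw [sum_ext hmn (fun l => a' (e j) l • u n (e j) l)]
        · exact Finset.sum_congr rfl fun l _ => by rw [← he, ha1]
        · intro l hl
          rw [ha3 j l hl, zero_smul]
      · intro j hj
        rw [ha2 j hj]
        simp
    have hnr : nr (r n) (fun j => lpn p (fun l => ‖a' j l‖)) =
        nr (r n) (fun j => lpn p (fun l => ‖a j l‖)) := by
      rw [nr_ext (hr0 n) hmn]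
      · congr 1
        ext j
        rw [lpn_ext hp0 hmn]
        · congr 1
          ext l
          rw [← he, ha1]
        · intro l hl
          rw [← he, ha3 j l hl, norm_zero]
      · intro j hj
        rw [ha2 j hj]
        unfold lpn
        simp only [Pi.zero_apply, norm_zero, abs_zero, Real.zero_rpow hp0.ne', Finset.sum_const_zero]
        exact Real.zero_rpow (by positivity)
    have h3 := hu n a'
    rw [hnr, hsum] at h3
    rw [ltn_eq hr0']
    set w : Fin m → ℝ := fun j => lpn p (fun l => ‖a j l‖) with hw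
    have h4 := nr_le_two (hr0 n) hr0' hclose w
    have h5 := nr_le_two hr0' (hr0 n) (by rw [abs_sub_comm]; exact hclose) w
    have h6 := nr_nonneg (r n) w
    constructor
    · linarith [h3.1]
    · calc ‖∑ j, ∑ l, a j l • u n (e j) (e l)‖ ≤ C * nr (r n) w := h3.2
        _ ≤ |C| * nr (r n) w := mul_le_mul_of_nonneg_right (le_abs_self C) h6
        _ ≤ |C| * (2 * nr r0 w) := mul_le_mul_of_nonneg_left h5 (abs_nonneg C)
        _ = 2 * |C| * nr r0 w := by ring

end Pool.Agent.Lib.MP_cdd7b4_an.MX.H65
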