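import Pool.Agent.Lib.MP_cdd7b4_an.MX.Iface

set_option autoImplicit false

/-! # Module PROF: the profiles -/

namespace Pool.Agent.Lib.MP_cdd7b4_an.MX.H65

open scoped BigOperators

/-- The truncated constant `s ^ κ` on `[0, 2 ^ κ)`. -/
noncomputable def Z (s : ℝ) (κ i : ℕ) : ℝ := if i < 2 ^ κ then s ^ κ else 0

theorem Z_nonneg {s : ℝ} (hs : 0 ≤ s) (κ i : ℕ) : 0 ≤ Z s κ i := by
  unfold Z
  split_ifs
  · positivity
  · exact le_rfl

/-- The coefficients. -/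
noncomputable def H (l t : ℕ) : ℝ := min 1 (min ((t : ℝ) / l) ((3 * l - t : ℝ) / l))

theorem H_le_one (l t : ℕ) : H l t ≤ 1 := min_le_left _ _

theorem H_nonneg {l t : ℕ} (hl : 1 ≤ l) (ht : t ≤ 3 * l) : 0 ≤ H l t := by
  have hl' : (0 : ℝ) < l := by exact_mod_cast hl
  have ht' : (t : ℝ) ≤ 3 * l := by exact_mod_cast ht
  unfold H
  refine le_min zero_le_one (le_min (by positivity) (div_nonneg (by linarith) hl'.le))

theorem H_mid {l t : ℕ} (hl : 1 ≤ l) (h1 : l ≤ t) (h2 : t ≤ 2 * l) : H l t = 1 := by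
  have hl' : (0 : ℝ) < l := by exact_mod_cast hl
  have h1' : (l : ℝ) ≤ t := by exact_mod_cast h1
  have h2' : (t : ℝ) ≤ 2 * l := by exact_mod_cast h2
  unfold H
  refine min_eq_left (le_min ?_ ?_)
  · rw [le_div_iff₀ hl']
    linarith
  · rw [le_div_iff₀ hl']
    linarith

theorem H_zero {l : ℕ} (hl : 1 ≤ l) : H l 0 = 0 := by
  have hl' : (0 : ℝ) < l := by exact_mod_cast hl
  refine le_antisymm ?_ (H_nonneg hl (Nat.zero_le _))
  unfold H
  refine (min_le_right _ _).trans ((min_le_left _ _).trans ?_)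
  simp

theorem H_end {l : ℕ} (hl : 1 ≤ l) : H l (3 * l) = 0 := by
  have hl' : (0 : ℝ) < l := by exact_mod_cast hl
  refine le_antisymm ?_ (H_nonneg hl le_rfl)
  unfold H
  refine (min_le_right _ _).trans ((min_le_right _ _).trans ?_)
  push_cast
  simp

theorem H_diff {l : ℕ} (hl : 1 ≤ l) (t : ℕ) : |H l t - H l (t + 1)| ≤ 1 / l := by
  have hl' : (0 : ℝ) < l := by exact_mod_cast hl
  unfold H
  refine (abs_min_sub_min_le_max _ _ _ _).trans (max_le ?_ ?_)
  · rw [sub_self, abs_zero]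
    positivity
  · refine (abs_min_sub_min_le_max _ _ _ _).trans (max_le ?_ ?_)
    · push_cast
      rw [← sub_div, abs_div, abs_of_pos hl']
      have : |(t : ℝ) - (t + 1)| = 1 := by
        rw [abs_sub_comm]
        simp
      rw [this]
    · push_cast
      rw [← sub_div, abs_div, abs_of_pos hl']
      have : |(3 * l - t : ℝ) - (3 * l - (t + 1))| = 1 := by
        have h2 : (3 * l - t : ℝ) - (3 * l - (t + 1)) = 1 := by ring
        rw [h2, abs_one]
      rw [this]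

/-- The profile `b`. -/
noncomputable def pb (s : ℝ) (l κ0 i : ℕ) : ℝ := ∑ t ∈ Finset.range (3 * l + 1), Z s (κ0 + t) i

/-- The profile `a`. -/
noncomputable def pa (s : ℝ) (l κ0 i : ℕ) : ℝ :=
  ∑ t ∈ Finset.range (3 * l + 1), H l t * Z s (κ0 + t) i

theorem term_bd {s : ℝ} (hs : 0 ≤ s) {l : ℕ} (hl : 1 ≤ l) (κ0 i : ℕ) {t : ℕ}
    (ht : t ∈ Finset.range (3 * l + 1)) :
    0 ≤ H l t * Z s (κ0 + t) i ∧ H l t * Z s (κ0 + t) i ≤ Z s (κ0 + t) i := by
  have h1 : t ≤ 3 * l := Nat.lt_succ_iff.1 (Finset.mem_range.1 ht)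
  have h2 := Z_nonneg hs (κ0 + t) i
  exact ⟨mul_nonneg (H_nonneg hl h1) h2, mul_le_of_le_one_left h2 (H_le_one l t)⟩

theorem pa_nonneg {s : ℝ} (hs : 0 ≤ s) {l : ℕ} (hl : 1 ≤ l) (κ0 i : ℕ) : 0 ≤ pa s l κ0 i :=
  Finset.sum_nonneg fun _ ht => (term_bd hs hl κ0 i ht).1

theorem pa_le_pb {s : ℝ} (hs : 0 ≤ s) {l : ℕ} (hl : 1 ≤ l) (κ0 i : ℕ) :
    pa s l κ0 i ≤ pb s l κ0 i :=
  Finset.sum_le_sum fun _ ht => (term_bd hs hl κ0 i ht).2

theorem pb_zero {s : ℝ} {l κ0 i : ℕ} (h : 2 ^ (κ0 + 3 * l) ≤ i) : pb s l κ0 i = 0 := by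
  refine Finset.sum_eq_zero fun t ht => ?_
  have h1 : t ≤ 3 * l := Nat.lt_succ_iff.1 (Finset.mem_range.1 ht)
  unfold Z
  rw [if_neg]
  rw [not_lt]
  exact (Nat.pow_le_pow_right (by norm_num) (by omega)).trans h

/-- The approximate eigenvector property. -/
theorem eig_bd {s c : ℝ} (hs : 0 ≤ s) (hc0 : 0 ≤ c) (hc2 : c ≤ 2) (hcs : c * s = 1) {l : ℕ}
    (hl : 1 ≤ l) (κ0 i : ℕ) :
    |pa s l κ0 (i / 2) - c * pa s l κ0 i| ≤ 2 / l * pb s l κ0 i := by
  have hl' : (0 : ℝ) < l := by exact_mod_cast hl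
  have hZ : ∀ κ, Z s κ (i / 2) = c * Z s (κ + 1) i := by
    intro κ
    unfold Z
    have h1 : i / 2 < 2 ^ κ ↔ i < 2 ^ (κ + 1) := by
      rw [pow_succ]
      omega
    by_cases h : i / 2 < 2 ^ κ
    · rw [if_pos h, if_pos (h1.1 h), pow_succ]
      calc s ^ κ = s ^ κ * (c * s) := by rw [hcs, mul_one]
        _ = c * (s ^ κ * s) := by ring
    · rw [if_neg h, if_neg fun hc => h (h1.2 hc), mul_zero]
  have h1 : pa s l κ0 (i / 2) = c * ∑ t ∈ Finset.range (3 * l), H l t * Z s (κ0 + t + 1) i := by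
    unfold pa
    rw [Finset.sum_range_succ, H_end hl, zero_mul, add_zero, Finset.mul_sum]
    refine Finset.sum_congr rfl fun t _ => ?_
    rw [hZ]
    ring
  have h2 : pa s l κ0 i = ∑ t ∈ Finset.range (3 * l), H l (t + 1) * Z s (κ0 + t + 1) i := by
    unfold pa
    rw [Finset.sum_range_succ', H_zero hl, zero_mul, add_zero]
    rfl
  have h3 : ∑ t ∈ Finset.range (3 * l), Z s (κ0 + t + 1) i ≤ pb s l κ0 i := by
    unfold pb
    rw [Finset.sum_range_succ' (fun t => Z s (κ0 + t) i)]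
    exact le_add_of_nonneg_right (Z_nonneg hs _ _)
  have h4 : pa s l κ0 (i / 2) - c * pa s l κ0 i =
      ∑ t ∈ Finset.range (3 * l), c * ((H l t - H l (t + 1)) * Z s (κ0 + t + 1) i) := by
    rw [h1, h2, ← mul_sub, ← Finset.sum_sub_distrib, Finset.mul_sum]
    refine Finset.sum_congr rfl fun t _ => ?_
    ring
  rw [h4]
  calc |∑ t ∈ Finset.range (3 * l), c * ((H l t - H l (t + 1)) * Z s (κ0 + t + 1) i)|
      ≤ ∑ t ∈ Finset.range (3 * l), |c * ((H l t - H l (t + 1)) * Z s (κ0 + t + 1) i)| :=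
        Finset.abs_sum_le_sum_abs _ _
    _ ≤ ∑ t ∈ Finset.range (3 * l), 2 / l * Z s (κ0 + t + 1) i := by
        refine Finset.sum_le_sum fun t _ => ?_
        have h5 := Z_nonneg hs (κ0 + t + 1) i
        rw [abs_mul, abs_mul, abs_of_nonneg hc0, abs_of_nonneg h5]
        calc c * (|H l t - H l (t + 1)| * Z s (κ0 + t + 1) i)
            ≤ 2 * (1 / l * Z s (κ0 + t + 1) i) := by
              refine mul_le_mul hc2 (mul_le_mul_of_nonneg_right (H_diff hl t) h5)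
                (by positivity) (by norm_num)
          _ = 2 / l * Z s (κ0 + t + 1) i := by ring
    _ = 2 / l * ∑ t ∈ Finset.range (3 * l), Z s (κ0 + t + 1) i := by rw [Finset.mul_sum]
    _ ≤ 2 / l * pb s l κ0 i := mul_le_mul_of_nonneg_left h3 (by positivity)

theorem sum_ite_pow {κ K : ℕ} (h : κ ≤ K) (v : ℝ) :
    ∑ i : Fin (2 ^ K), (if (i : ℕ) < 2 ^ κ then v else 0) = 2 ^ κ * v := by
  rw [Fin.sum_univ_eq_sum_range (fun i => if i < 2 ^ κ then v else 0) (2 ^ K)]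
  have h1 : Finset.range (2 ^ κ) ⊆ Finset.range (2 ^ K) :=
    Finset.range_subset_range.2 (Nat.pow_le_pow_right (by norm_num) h)
  rw [← Finset.sum_subset h1]
  · rw [Finset.sum_congr rfl fun i hi => if_pos (Finset.mem_range.1 hi), Finset.sum_const,
      Finset.card_range, nsmul_eq_mul]
    push_cast
    rfl
  · intro i _ hi
    exact if_neg fun hc => hi (Finset.mem_range.2 hc)

theorem sum_rpow_le_rpow_sum {ι : Type*} (S : Finset ι) (f : ι → ℝ) (hf : ∀ i ∈ S, 0 ≤ f i) {p : ℝ}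
    (hp : 1 ≤ p) : ∑ i ∈ S, f i ^ p ≤ (∑ i ∈ S, f i) ^ p := by
  classical
  induction S using Finset.induction_on with
  | empty =>
    rw [Finset.sum_empty, Finset.sum_empty, Real.zero_rpow (by linarith)]
  | insert j S hj ih =>
    rw [Finset.sum_insert hj, Finset.sum_insert hj]
    have h1 := ih fun i hi => hf i (Finset.mem_insert_of_mem hi)
    have h2 := Real.add_rpow_le_rpow_add (hf j (Finset.mem_insert_self _ _))
      (Finset.sum_nonneg fun i hi => hf i (Finset.mem_insert_of_mem hi)) hp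
    linarith

theorem Z_rpow {s : ℝ} (κ i : ℕ) {q : ℝ} (hq : 0 < q) :
    Z s κ i ^ q = if i < 2 ^ κ then (s ^ κ) ^ q else 0 := by
  unfold Z
  split_ifs
  · rfl
  · exact Real.zero_rpow hq.ne'

/-- Upper bound for the sums of `q`-th powers of `a`. -/
theorem pa_sum_le {s : ℝ} (hs : 0 ≤ s) {l : ℕ} (hl : 1 ≤ l) (κ0 : ℕ) {q : ℝ} (hq : 1 ≤ q) :
    ∑ i : Fin (2 ^ (κ0 + 3 * l)), |pa s l κ0 i| ^ q ≤
      (3 * l + 1 : ℝ) ^ (q - 1) *
        ∑ t ∈ Finset.range (3 * l + 1), 2 ^ (κ0 + t) * (s ^ (κ0 + t)) ^ q := by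
  have h1 : ∀ i : ℕ, |pa s l κ0 i| ^ q ≤ (3 * l + 1 : ℝ) ^ (q - 1) *
      ∑ t ∈ Finset.range (3 * l + 1), Z s (κ0 + t) i ^ q := by
    intro i
    rw [abs_of_nonneg (pa_nonneg hs hl κ0 i)]
    have h2 := Real.rpow_sum_le_const_mul_sum_rpow_of_nonneg (Finset.range (3 * l + 1)) hq
      (f := fun t => H l t * Z s (κ0 + t) i) fun t ht => (term_bd hs hl κ0 i ht).1
    rw [Finset.card_range] at h2
    push_cast at h2
    refine h2.trans (mul_le_mul_of_nonneg_left ?_ (by positivity))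
    refine Finset.sum_le_sum fun t ht => ?_
    exact Real.rpow_le_rpow (term_bd hs hl κ0 i ht).1 (term_bd hs hl κ0 i ht).2 (by linarith)
  refine (Finset.sum_le_sum fun (i : Fin (2 ^ (κ0 + 3 * l))) _ => h1 i.val).trans (le_of_eq ?_)
  rw [← Finset.mul_sum, Finset.sum_comm]
  refine congrArg _ (Finset.sum_congr rfl fun t ht => ?_)
  have h3 : t ≤ 3 * l := Nat.lt_succ_iff.1 (Finset.mem_range.1 ht)
  rw [← sum_ite_pow (Nat.add_le_add_left h3 κ0) ((s ^ (κ0 + t)) ^ q)]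
  exact Finset.sum_congr rfl fun i _ => Z_rpow _ _ (by linarith)

/-- Lower bound for the sum of the `p`-th powers of `a`. -/
theorem pa_sum_ge {s p : ℝ} (hs : 0 ≤ s) (hp : 1 ≤ p) (hsp : s ^ p = 1 / 2) {l : ℕ} (hl : 1 ≤ l)
    (κ0 : ℕ) : (l : ℝ) + 1 ≤ ∑ i : Fin (2 ^ (κ0 + 3 * l)), |pa s l κ0 i| ^ p := by
  have hpow : ∀ κ : ℕ, (2 : ℝ) ^ κ * (s ^ κ) ^ p = 1 := by
    intro κ
    rw [← Real.rpow_natCast s κ, ← Real.rpow_mul hs, mul_comm (κ : ℝ) p, Real.rpow_mul hs, hsp,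
      Real.rpow_natCast, ← mul_pow]
    norm_num
  have h1 : ∀ i : ℕ, ∑ t ∈ Finset.Icc l (2 * l), Z s (κ0 + t) i ^ p ≤ |pa s l κ0 i| ^ p := by
    intro i
    rw [abs_of_nonneg (pa_nonneg hs hl κ0 i)]
    have h2 := sum_rpow_le_rpow_sum (Finset.range (3 * l + 1))
      (fun t => H l t * Z s (κ0 + t) i) (fun t ht => (term_bd hs hl κ0 i ht).1) hp
    refine le_trans ?_ h2
    have h3 : Finset.Icc l (2 * l) ⊆ Finset.range (3 * l + 1) := by
      intro t ht
      rw [Finset.mem_Icc] at ht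
      rw [Finset.mem_range]
      omega
    calc ∑ t ∈ Finset.Icc l (2 * l), Z s (κ0 + t) i ^ p
        = ∑ t ∈ Finset.Icc l (2 * l), (H l t * Z s (κ0 + t) i) ^ p := by
          refine Finset.sum_congr rfl fun t ht => ?_
          rw [Finset.mem_Icc] at ht
          rw [H_mid hl ht.1 ht.2, one_mul]
      _ ≤ ∑ t ∈ Finset.range (3 * l + 1), (H l t * Z s (κ0 + t) i) ^ p :=
          Finset.sum_le_sum_of_subset_of_nonneg h3 fun t ht _ =>
            Real.rpow_nonneg (term_bd hs hl κ0 i ht).1 _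
  refine le_trans (le_of_eq ?_)
    (Finset.sum_le_sum fun (i : Fin (2 ^ (κ0 + 3 * l))) _ => h1 i.val)
  rw [Finset.sum_comm]
  have h4 : ∀ t ∈ Finset.Icc l (2 * l),
      ∑ i : Fin (2 ^ (κ0 + 3 * l)), Z s (κ0 + t) i ^ p = 1 := by
    intro t ht
    rw [Finset.mem_Icc] at ht
    have h3 : κ0 + t ≤ κ0 + 3 * l := by omega
    rw [← hpow (κ0 + t), ← sum_ite_pow h3 ((s ^ (κ0 + t)) ^ p)]
    exact Finset.sum_congr rfl fun i _ => Z_rpow _ _ (by linarith)
  rw [Finset.sum_congr rfl h4, Finset.sum_const, Nat.card_Icc, nsmul_eq_mul, mul_one]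
  have h5 : 2 * l + 1 - l = l + 1 := by omega
  rw [h5]
  push_cast
  rfl

/-- Upper bound for the sum of the `p`-th powers of `b`. -/
theorem pb_sum_le {s p : ℝ} (hs : 0 ≤ s) (hs1 : s ≤ 3 / 4) (hp : 1 ≤ p) (hsp : s ^ p = 1 / 2)
    {l : ℕ} (hl : 1 ≤ l) (κ0 : ℕ) :
    ∑ i : Fin (2 ^ (κ0 + 3 * l)), |pb s l κ0 i| ^ p ≤ (4 : ℝ) ^ p * (3 * l + 1) := by
  have hpow : ∀ κ : ℕ, (2 : ℝ) ^ κ * (s ^ κ) ^ p = 1 := by
    intro κ
    rw [← Real.rpow_natCast s κ, ← Real.rpow_mul hs, mul_comm (κ : ℝ) p, Real.rpow_mul hs, hsp,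
      Real.rpow_natCast, ← mul_pow]
    norm_num
  have hb0 : ∀ i, 0 ≤ pb s l κ0 i := fun i => Finset.sum_nonneg fun t _ => Z_nonneg hs _ _
  have h1 : ∀ i : ℕ, |pb s l κ0 i| ^ p ≤
      (4 : ℝ) ^ p * ∑ t ∈ Finset.range (3 * l + 1), Z s (κ0 + t) i ^ p := by
    intro i
    rw [abs_of_nonneg (hb0 i)]
    have hsum0 : 0 ≤ ∑ t ∈ Finset.range (3 * l + 1), Z s (κ0 + t) i ^ p :=
      Finset.sum_nonneg fun t _ => Real.rpow_nonneg (Z_nonneg hs _ _) _
    by_cases hi : 2 ^ (κ0 + 3 * l) ≤ i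
    · rw [pb_zero hi, Real.zero_rpow (by linarith)]
      positivity
    · rw [not_le] at hi
      have hex : ∃ t, i < 2 ^ (κ0 + t) := ⟨3 * l, hi⟩
      classical
      obtain ⟨t1, ht1, hmin⟩ : ∃ t1, i < 2 ^ (κ0 + t1) ∧ ∀ t < t1, ¬ i < 2 ^ (κ0 + t) :=
        ⟨Nat.find hex, Nat.find_spec hex, fun t ht => Nat.find_min hex ht⟩
      have ht1l : t1 ≤ 3 * l := by
        by_contra hc
        exact hmin (3 * l) (by omega) hi
      have h2 : pb s l κ0 i = ∑ t ∈ Finset.Ico t1 (3 * l + 1), s ^ (κ0 + t) := by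
        unfold pb
        have hsub : Finset.Ico t1 (3 * l + 1) ⊆ Finset.range (3 * l + 1) := by
          intro t ht
          rw [Finset.mem_Ico] at ht
          exact Finset.mem_range.2 ht.2
        rw [← Finset.sum_subset hsub]
        · refine Finset.sum_congr rfl fun t ht => ?_
          rw [Finset.mem_Ico] at ht
          unfold Z
          rw [if_pos]
          exact ht1.trans_le (Nat.pow_le_pow_right (by norm_num) (by omega))
        · intro t ht hnt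
          rw [Finset.mem_range] at ht
          have hlt : t < t1 := by
            by_contra hc
            exact hnt (Finset.mem_Ico.2 ⟨not_lt.1 hc, ht⟩)
          unfold Z
          rw [if_neg (hmin t hlt)]
      have h3 : pb s l κ0 i ≤ 4 * s ^ (κ0 + t1) := by
        rw [h2]
        have h4 : ∑ t ∈ Finset.Ico t1 (3 * l + 1), s ^ (κ0 + t) =
            s ^ κ0 * ∑ t ∈ Finset.Ico t1 (3 * l + 1), s ^ t := by
          rw [Finset.mul_sum]
          exact Finset.sum_congr rfl fun t _ => pow_add _ _ _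
        rw [h4, pow_add]
        have h5 := geom_sum_Ico_le_of_lt_one (m := t1) (n := 3 * l + 1) hs (by linarith)
        have h6 : s ^ t1 / (1 - s) ≤ 4 * s ^ t1 := by
          rw [div_le_iff₀ (by linarith)]
          have h7 : 0 ≤ s ^ t1 := by positivity
          nlinarith
        calc s ^ κ0 * ∑ t ∈ Finset.Ico t1 (3 * l + 1), s ^ t ≤ s ^ κ0 * (4 * s ^ t1) :=
              mul_le_mul_of_nonneg_left (h5.trans h6) (by positivity)
          _ = 4 * (s ^ κ0 * s ^ t1) := by ring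
      calc pb s l κ0 i ^ p ≤ (4 * s ^ (κ0 + t1)) ^ p :=
            Real.rpow_le_rpow (hb0 i) h3 (by linarith)
        _ = (4 : ℝ) ^ p * (s ^ (κ0 + t1)) ^ p := Real.mul_rpow (by norm_num) (by positivity)
        _ = (4 : ℝ) ^ p * Z s (κ0 + t1) i ^ p := by
            rw [Z_rpow _ _ (by linarith), if_pos ht1]
        _ ≤ (4 : ℝ) ^ p * ∑ t ∈ Finset.range (3 * l + 1), Z s (κ0 + t) i ^ p := by
            refine mul_le_mul_of_nonneg_left ?_ (by positivity)
            exact Finset.single_le_sum (f := fun t => Z s (κ0 + t) i ^ p)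
              (fun t _ => Real.rpow_nonneg (Z_nonneg hs _ _) _)
              (Finset.mem_range.2 (Nat.lt_succ_iff.2 ht1l))
  refine (Finset.sum_le_sum fun (i : Fin (2 ^ (κ0 + 3 * l))) _ => h1 i.val).trans (le_of_eq ?_)
  rw [← Finset.mul_sum, Finset.sum_comm]
  have h4 : ∀ t ∈ Finset.range (3 * l + 1),
      ∑ i : Fin (2 ^ (κ0 + 3 * l)), Z s (κ0 + t) i ^ p = 1 := by
    intro t ht
    rw [Finset.mem_range] at ht
    have h3 : κ0 + t ≤ κ0 + 3 * l := by omega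
    rw [← hpow (κ0 + t), ← sum_ite_pow h3 ((s ^ (κ0 + t)) ^ p)]
    exact Finset.sum_congr rfl fun i _ => Z_rpow _ _ (by linarith)
  rw [Finset.sum_congr rfl h4, Finset.sum_const, Finset.card_range, nsmul_eq_mul, mul_one]
  push_cast
  rfl

/-- PROF. The profiles. -/
theorem prof : ProfStatement := by
  intro p l κ0 hp hp2 hl
  have hp0 : 0 < p := by linarith
  have hl' : (1 : ℝ) ≤ l := by exact_mod_cast hl
  set s : ℝ := (2 : ℝ) ^ (-(1 / p)) with hsdef
  have hs0 : 0 ≤ s := by positivity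
  have hcs : (2 : ℝ) ^ (1 / p) * s = 1 := by
    rw [hsdef, ← Real.rpow_add (by norm_num)]
    simp
  have hip : 1 / p ≤ 1 := by
    rw [div_le_one hp0]
    exact hp
  have hip2 : 1 / 2 < 1 / p := one_div_lt_one_div_of_lt hp0 hp2
  have hc2 : (2 : ℝ) ^ (1 / p) ≤ 2 := by
    calc (2 : ℝ) ^ (1 / p) ≤ 2 ^ (1 : ℝ) := Real.rpow_le_rpow_of_exponent_le (by norm_num) hip
      _ = 2 := Real.rpow_one 2
  have hsp : s ^ p = 1 / 2 := by
    rw [hsdef, ← Real.rpow_mul (by norm_num)]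
    have h1 : -(1 / p) * p = -1 := by field_simp
    rw [h1, Real.rpow_neg_one]
    norm_num
  have hs1 : s ≤ 3 / 4 := by
    have h1 : s ^ 2 ≤ 1 / 2 := by
      rw [hsdef, ← Real.rpow_natCast, ← Real.rpow_mul (by norm_num)]
      calc (2 : ℝ) ^ (-(1 / p) * (2 : ℕ)) ≤ 2 ^ (-1 : ℝ) := by
            refine Real.rpow_le_rpow_of_exponent_le (by norm_num) ?_
            push_cast
            linarith
        _ = 1 / 2 := by rw [Real.rpow_neg_one]; norm_num
    nlinarith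
  have hpowq : ∀ (κ : ℕ) (q : ℝ), (2 : ℝ) ^ κ * (s ^ κ) ^ q = 2 ^ ((κ : ℝ) * (1 - q / p)) := by
    intro κ q
    rw [← Real.rpow_natCast s κ, ← Real.rpow_mul hs0, hsdef, ← Real.rpow_mul (by norm_num),
      ← Real.rpow_natCast 2 κ, ← Real.rpow_add (by norm_num)]
    congr 1
    field_simp
    ring
  refine ⟨pa s l κ0, pb s l κ0, fun i => ⟨pa_nonneg hs0 hl κ0 i, pa_le_pb hs0 hl κ0 i⟩,
    fun i hi => pb_zero hi, fun i => eig_bd hs0 (by positivity) hc2 hcs hl κ0 i, ?_, ?_, ?_, ?_⟩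
  · -- `b` and `a`
    have h1 := pb_sum_le hs0 hs1 hp hsp hl κ0
    have h2 := pa_sum_ge hs0 hp hsp hl κ0
    set A := ∑ i : Fin (2 ^ (κ0 + 3 * l)), |pa s l κ0 i| ^ p with hA
    set B := ∑ i : Fin (2 ^ (κ0 + 3 * l)), |pb s l κ0 i| ^ p with hB
    have hA0 : 0 ≤ A := by linarith
    have hB0 : 0 ≤ B := Finset.sum_nonneg fun i _ => by positivity
    have h3 : B ≤ (60 : ℝ) ^ p * A := by
      have h4 : (3 : ℝ) ≤ 15 ^ p := by
        calc (3 : ℝ) ≤ 15 ^ (1 : ℝ) := by norm_num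
          _ ≤ 15 ^ p := Real.rpow_le_rpow_of_exponent_le (by norm_num) hp
      have h5 : (60 : ℝ) ^ p = 4 ^ p * 15 ^ p := by
        rw [← Real.mul_rpow (by norm_num) (by norm_num)]
        norm_num
      calc B ≤ (4 : ℝ) ^ p * (3 * l + 1) := h1
        _ ≤ (4 : ℝ) ^ p * (3 * A) := mul_le_mul_of_nonneg_left (by linarith) (by positivity)
        _ ≤ (4 : ℝ) ^ p * (15 ^ p * A) := by
            refine mul_le_mul_of_nonneg_left ?_ (by positivity)
            exact mul_le_mul_of_nonneg_right h4 hA0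
        _ = (60 : ℝ) ^ p * A := by rw [h5]; ring
    unfold lpn
    rw [← hA, ← hB]
    calc B ^ (1 / p) ≤ ((60 : ℝ) ^ p * A) ^ (1 / p) :=
          Real.rpow_le_rpow hB0 h3 (by positivity)
      _ = 60 * A ^ (1 / p) := by
          rw [Real.mul_rpow (by positivity) hA0, ← Real.rpow_mul (by norm_num)]
          have h6 : p * (1 / p) = 1 := by field_simp
          rw [h6, Real.rpow_one]
  · -- `1 ≤ lpn p a`
    have h2 := pa_sum_ge hs0 hp hsp hl κ0
    unfold lpn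
    exact Real.one_le_rpow (by linarith) (by positivity)
  · -- `q ≤ p`
    intro q hq hqp
    have hq0 : 0 < q := by linarith
    have h1 := pa_sum_le hs0 hl κ0 hq
    have h2 : ∑ t ∈ Finset.range (3 * l + 1), (2 : ℝ) ^ (κ0 + t) * (s ^ (κ0 + t)) ^ q ≤
        (3 * l + 1) * 2 ^ ((κ0 + 3 * l : ℝ) * (1 - q / p)) := by
      have h3 : ∀ t ∈ Finset.range (3 * l + 1), (2 : ℝ) ^ (κ0 + t) * (s ^ (κ0 + t)) ^ q ≤
          2 ^ ((κ0 + 3 * l : ℝ) * (1 - q / p)) := by
        intro t ht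
        rw [hpowq]
        refine Real.rpow_le_rpow_of_exponent_le (by norm_num) ?_
        have h4 : t ≤ 3 * l := Nat.lt_succ_iff.1 (Finset.mem_range.1 ht)
        have h5 : (t : ℝ) ≤ 3 * l := by exact_mod_cast h4
        have h6 : 0 ≤ 1 - q / p := by
          rw [sub_nonneg, div_le_one hp0]
          exact hqp
        push_cast
        exact mul_le_mul_of_nonneg_right (by linarith) h6
      refine (Finset.sum_le_sum h3).trans (le_of_eq ?_)
      rw [Finset.sum_const, Finset.card_range, nsmul_eq_mul]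
      push_cast
      rfl
    have h7 : (0 : ℝ) < 3 * l + 1 := by positivity
    have h8 : ∑ i : Fin (2 ^ (κ0 + 3 * l)), |pa s l κ0 i| ^ q ≤
        (3 * l + 1 : ℝ) ^ q * 2 ^ ((κ0 + 3 * l : ℝ) * (1 - q / p)) := by
      refine h1.trans ((mul_le_mul_of_nonneg_left h2 (by positivity)).trans (le_of_eq ?_))
      rw [← mul_assoc]
      congr 1
      calc (3 * l + 1 : ℝ) ^ (q - 1) * (3 * l + 1) = (3 * l + 1 : ℝ) ^ (q - 1) *
            (3 * l + 1) ^ (1 : ℝ) := by rw [Real.rpow_one]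
        _ = (3 * l + 1 : ℝ) ^ q := by rw [← Real.rpow_add h7]; ring_nf
    unfold lpn
    calc (∑ i : Fin (2 ^ (κ0 + 3 * l)), |pa s l κ0 i| ^ q) ^ (1 / q)
        ≤ ((3 * l + 1 : ℝ) ^ q * 2 ^ ((κ0 + 3 * l : ℝ) * (1 - q / p))) ^ (1 / q) :=
          Real.rpow_le_rpow (Finset.sum_nonneg fun i _ => by positivity) h8 (by positivity)
      _ = (3 * l + 1) * (2 : ℝ) ^ ((κ0 + 3 * l : ℝ) * (1 / q - 1 / p)) := by
          rw [Real.mul_rpow (by positivity) (by positivity), ← Real.rpow_mul h7.le,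
            ← Real.rpow_mul (by norm_num)]
          have h9 : q * (1 / q) = 1 := by field_simp
          have h10 : (κ0 + 3 * l : ℝ) * (1 - q / p) * (1 / q) =
              (κ0 + 3 * l : ℝ) * (1 / q - 1 / p) := by
            field_simp
          rw [h9, Real.rpow_one, h10]
  · -- squares
    have h1 := pa_sum_le hs0 hl κ0 (q := 2) (by norm_num)
    have h2 : ∑ t ∈ Finset.range (3 * l + 1), (2 : ℝ) ^ (κ0 + t) * (s ^ (κ0 + t)) ^ (2 : ℝ) ≤
        (3 * l + 1) * 2 ^ ((κ0 : ℝ) * (1 - 2 / p)) := by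
      have h3 : ∀ t ∈ Finset.range (3 * l + 1), (2 : ℝ) ^ (κ0 + t) * (s ^ (κ0 + t)) ^ (2 : ℝ) ≤
          2 ^ ((κ0 : ℝ) * (1 - 2 / p)) := by
        intro t _
        rw [hpowq]
        refine Real.rpow_le_rpow_of_exponent_le (by norm_num) ?_
        have h6 : 1 - 2 / p ≤ 0 := by
          have : 2 / p = 2 * (1 / p) := by ring
          rw [this]
          linarith
        push_cast
        have h7 : (0 : ℝ) ≤ t := by positivity
        nlinarith
      refine (Finset.sum_le_sum h3).trans (le_of_eq ?_)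
      rw [Finset.sum_const, Finset.card_range, nsmul_eq_mul]
      push_cast
      rfl
    have h7 : (0 : ℝ) < 3 * l + 1 := by positivity
    have h8 : ∑ i : Fin (2 ^ (κ0 + 3 * l)), pa s l κ0 i ^ 2 =
        ∑ i : Fin (2 ^ (κ0 + 3 * l)), |pa s l κ0 i| ^ (2 : ℝ) := by
      refine Finset.sum_congr rfl fun i _ => ?_
      rw [Real.rpow_two, sq_abs]
    rw [h8]
    refine h1.trans ((mul_le_mul_of_nonneg_left h2 (by positivity)).trans (le_of_eq ?_))
    have h9 : (3 * l + 1 : ℝ) ^ ((2 : ℝ) - 1) = 3 * l + 1 := by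
      have : (2 : ℝ) - 1 = 1 := by norm_num
      rw [this, Real.rpow_one]
    have h10 : (2 : ℝ) ^ ((κ0 : ℝ) * (1 - 2 / p)) =
        ((2 : ℝ) ^ (-((κ0 : ℝ) * (1 / p - 1 / 2)))) ^ 2 := by
      rw [← Real.rpow_natCast ((2 : ℝ) ^ (-((κ0 : ℝ) * (1 / p - 1 / 2)))) 2,
        ← Real.rpow_mul (by norm_num)]
      congr 1
      push_cast
      ring
    rw [h9, h10, mul_pow]
    ring

end Pool.Agent.Lib.MP_cdd7b4_an.MX.H65
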